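import Pool.Agent.Helper668.QK

/-!
The images of semihomogeneous noncommutative polynomials on the real quaternions.
-/

set_option autoImplicit false
set_option linter.unusedVariables false

open scoped Quaternion

namespace Pool.Agent.Results.MP_4e44b6_al.QuaternionImages

/-- The coefficient of the word `l` in the noncommutative polynomial `p`. -/
noncomputable def wordCoeff {m : ℕ} (p : FreeAlgebra ℝ (Fin m)) (l : FreeMonoid (Fin m)) : ℝ :=
  (FreeAlgebra.equivMonoidAlgebraFreeMonoid p).coeff l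

/-- `p` is semihomogeneous: for some non-negative integer weights `w_1, …, w_m` and some integer
`d ≠ 0`, every word occurring in `p` has weighted degree `d`. -/
def IsSemihomogeneous {m : ℕ} (p : FreeAlgebra ℝ (Fin m)) : Prop :=
  ∃ (w : Fin m → ℕ) (d : ℤ), d ≠ 0 ∧
    ∀ l : FreeMonoid (Fin m), wordCoeff p l ≠ 0 → (((l.toList.map w).sum : ℕ) : ℤ) = d

/-- The image of the noncommutative polynomial `p` on the real quaternions. -/
noncomputable def image {m : ℕ} (p : FreeAlgebra ℝ (Fin m)) : Set ℍ[ℝ] :=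
  Set.range (fun a : Fin m → ℍ[ℝ] => FreeAlgebra.lift ℝ a p)

/-- `S` is a finite union of nondegenerate intervals (open, closed or half-open). -/
def IsFiniteUnionOfIntervals (S : Set ℝ) : Prop :=
  ∃ F : Set (Set ℝ), F.Finite ∧ (∀ I ∈ F, I.OrdConnected ∧ I.Nontrivial) ∧ S = ⋃₀ F

/-- The admissible sets: nonempty finite unions `S ⊆ [-1, 1]` of nondegenerate intervals such
that the closure of `{|s| : s ∈ S}` is an interval `[a, b]` with `a = 0` or `b = 1`. -/
def Admissible (S : Set ℝ) : Prop :=
  S.Nonempty ∧ S ⊆ Set.Icc (-1) 1 ∧ IsFiniteUnionOfIntervals S ∧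
    ∃ a b : ℝ, closure ((fun s => |s|) '' S) = Set.Icc a b ∧ (a = 0 ∨ b = 1)

/-- The cone of all quaternions `q` such that `q = 0` or `Re q / |q| ∈ S`. -/
def coneOver (S : Set ℝ) : Set ℍ[ℝ] := {q | q = 0 ∨ q.re / ‖q‖ ∈ S}

/-! ### examples -/

/-- The quaternions with non-positive real part form the cone over `[-1, 0]`. -/
theorem coneOver_nonpos : coneOver (Set.Icc (-1) 0) = {q : ℍ[ℝ] | q.re ≤ 0} := by
  ext q
  simp only [coneOver, Set.mem_ofPred_eq]
  by_cases h0 : q = 0
  · simp [h0]
  have hn : 0 < ‖q‖ := norm_pos_iff.2 h0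
  have h1 := abs_le_of_sq_le_sq' (Pool.Agent.Helper668.QI.re_sq_le q) hn.le
  constructor
  · rintro (h | h)
    · exact absurd h h0
    · have := h.2
      rw [div_le_iff₀ hn, zero_mul] at this
      exact this
  · intro h
    right
    constructor
    · rw [le_div_iff₀ hn]; linarith [h1.1]
    · rw [div_le_iff₀ hn]; linarith

theorem admissible_nonpos : Admissible (Set.Icc (-1) 0) := by
  refine ⟨⟨0, by simp⟩, Set.Icc_subset_Icc le_rfl zero_le_one, ⟨{Set.Icc (-1) 0},
    Set.finite_singleton _, ?_, by simp⟩, 0, 1, ?_, Or.inl rfl⟩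
  · intro I hI
    rw [Set.mem_singleton_iff] at hI
    subst hI
    exact ⟨Set.ordConnected_Icc, 0, by simp, -1, by simp, by norm_num⟩
  · have : (fun s : ℝ => |s|) '' Set.Icc (-1) 0 = Set.Icc 0 1 := by
      ext x
      simp only [Set.mem_image, Set.mem_Icc]
      constructor
      · rintro ⟨s, ⟨h1, h2⟩, rfl⟩
        rw [abs_of_nonpos h2]
        constructor <;> linarith
      · rintro ⟨h1, h2⟩
        exact ⟨-x, ⟨by linarith, by linarith⟩, by rw [abs_neg, abs_of_nonneg h1]⟩
    rw [this, closure_Icc]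

/-- No admissible set stays away from both `0` and `±1`. -/
theorem not_admissible {S : Set ℝ} {c d : ℝ} (hc : 0 < c) (hd : d < 1)
    (hS : ∀ s ∈ S, c ≤ |s| ∧ |s| ≤ d) : ¬ Admissible S := by
  rintro ⟨⟨s, hs⟩, -, -, a, b, hcl, hab⟩
  have h1 : Set.Icc a b ⊆ Set.Icc c d := by
    rw [← hcl]
    apply closure_minimal _ isClosed_Icc
    rintro _ ⟨s, hs, rfl⟩
    exact hS s hs
  have h2 : |s| ∈ Set.Icc a b := hcl ▸ subset_closure ⟨s, hs, rfl⟩
  have hle := h2.1.trans h2.2
  rcases hab with rfl | rfl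
  · have := (h1 ⟨le_rfl, hle⟩).1
    linarith
  · have := (h1 ⟨hle, le_rfl⟩).2
    linarith

/-- **The images of semihomogeneous polynomials on the real quaternions.**

A set `X` of quaternions is the image of a semihomogeneous polynomial if and only if it is
`{0}`, `ℝ`, `ℝ_{≥0}`, `ℝ_{≤0}`, the set of pure quaternions, or the cone over an admissible set.
The cones over admissible sets have nonempty interior, and different admissible sets have
different cones. -/
theorem result :
    (∀ X : Set ℍ[ℝ],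
      (∃ (m : ℕ) (p : FreeAlgebra ℝ (Fin m)), IsSemihomogeneous p ∧ image p = X) ↔
        (X = {0} ∨ X = Set.range (fun r : ℝ => (r : ℍ[ℝ])) ∨
          X = (fun r : ℝ => (r : ℍ[ℝ])) '' Set.Ici 0 ∨
          X = (fun r : ℝ => (r : ℍ[ℝ])) '' Set.Iic 0 ∨
          X = {q : ℍ[ℝ] | q.re = 0} ∨
          ∃ S : Set ℝ, Admissible S ∧ X = coneOver S)) ∧
    (∀ S : Set ℝ, Admissible S → (interior (coneOver S)).Nonempty) ∧
    (∀ S S' : Set ℝ, Admissible S → Admissible S' → coneOver S = coneOver S' → S = S') :=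
  Pool.Agent.Helper668.QI.classification

end Pool.Agent.Results.MP_4e44b6_al.QuaternionImages
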